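import Pool.Agent.H52.KT.Fin
import Pool.Agent.H82.K2.Sec

/-!
The Kac-Weisfeiler equality in characteristic 2 (the frozen statement `S02507` with `p = 2`).
-/

set_option autoImplicit false

namespace H93.Old.KwTwo

/-- For a finite-dimensional restrictable Lie algebra `L` of index `d` over an algebraically closed
field of characteristic 2, every simple `L`-module has squared dimension at most `2 ^ (dim L - d)`,
and some simple module attains it. -/
theorem result (K : Type) [Field K] [IsAlgClosed K] [CharP K 2]
    (L : Type) [LieRing L] [LieAlgebra K L] [FiniteDimensional K L]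
    (hL : ∀ x : L, ∃ y : L, (LieAlgebra.ad K L x) ^ 2 = LieAlgebra.ad K L y) :
    ∀ d : ℕ,
      (∃ χ : Module.Dual K L,
        Module.finrank K ↥(⨅ y : L, LinearMap.ker (LinearMap.comp χ (LieAlgebra.ad K L y))) = d) →
      (∀ χ : Module.Dual K L,
        d ≤ Module.finrank K ↥(⨅ y : L, LinearMap.ker (LinearMap.comp χ (LieAlgebra.ad K L y)))) →
      (∀ (M : Type) [AddCommGroup M] [Module K M] [LieRingModule L M] [LieModule K L M],
        LieModule.IsIrreducible K L M → FiniteDimensional K M →
        Module.finrank K M ^ 2 ≤ 2 ^ (Module.finrank K L - d)) ∧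
      (∃ (M : Type) (_ : AddCommGroup M) (_ : Module K M) (_ : LieRingModule L M)
          (_ : LieModule K L M),
        LieModule.IsIrreducible K L M ∧ FiniteDimensional K M ∧
        Module.finrank K M ^ 2 = 2 ^ (Module.finrank K L - d)) := by
  haveI : Fact (Nat.Prime 2) := ⟨Nat.prime_two⟩
  exact H52.KT.kw_of_sec 2 K L hL (Module.finBasis K L) fun U _ _ D Φ ξ hS x hx e z hz h0 =>
    H82.K2.sec_two hS x hx e z hz h0

end H93.Old.KwTwo
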