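import Pool.Agent.H93.CG.LowF
import Pool.Agent.H93.CG.UFin

/-!
# Symmetric proofs with all symmetric gates: free actions of groups

`Refutation ψ s n D`: a refutation of the propositional translation of the first-order sentence `ψ`
over the universe `Fin s ⊕ Fin n`, and of the atoms and negated atoms in `D`, in the sequent calculus
with conjunctions and symmetric gates `sym A S` (the number of true members of `S` is an element of
`A`; threshold gates, exact counting gates, counting gates modulo any number) of unbounded fan-in,
of any depth, with shared subformulas (circuits), which is symmetric under all permutations of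
`Fin n`. Its size is the number of nodes of the circuit plus the number of lines.

`free` and `table G n`: the group `G` of order `s`, given by its multiplication table, acts freely on
`n` points. This is contradictory if and only if `s` does not divide `n`, that is, if some prime power
`q` divides `s` but not `n`. The size of the refutations is `n ^ Θ(q)` for the least such `q` (if
`100 * q * s ≤ n`); for a prime `s` about `sqrt n / 10` it is `2 ^ Ω(sqrt n * log n)`. The pigeonhole
principle has refutations of polynomial size.
-/

set_option autoImplicit false

namespace Pool.Agent.Results.MP_576eff_lc.SymmetricCounting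

open Pool.H93.CG Pool.Agent.H88.SY

theorem result :
    (∀ (s n k : ℕ) (G : Group (Fin s)), 100 * (k * s) ≤ n →
      (∀ q, IsPrimePow q → q ∣ s → ¬ q ∣ n → k ≤ q) →
      ∀ R : Refutation free s n (table G n), n.choose k ≤ R.size) ∧
    (∃ c : ℕ, ∀ (s n q : ℕ) (G : Group (Fin s)), IsPrimePow q → q ∣ s → ¬ q ∣ n →
      ∃ R : Refutation free s n (table G n), R.size ≤ (s + n) ^ (c * q) ∧ ∀ a, R.C.rank a ≤ c) ∧
    (∃ c : ℕ, ∀ s n : ℕ, 2 ≤ s + n → s < n →
      ∃ R : Refutation php s n (pigeons s n), R.size ≤ (s + n) ^ c) :=
  ⟨lower_free, upper_free, upper_php⟩

end Pool.Agent.Results.MP_576eff_lc.SymmetricCounting
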