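import Pool.Agent.H93.SY.LiftM
import Pool.Agent.H93.SY.Divis
import Pool.Agent.H31.SY.Upper

/-!
# Gap theorems for symmetric proofs of unbounded depth with modular gates

`Refutation ψ m s n D`: a refutation of the propositional translation of the first-order sentence `ψ`
over the universe `Fin s ⊕ Fin n`, and of the atoms and negated atoms in `D`, in the sequent calculus
with conjunctions and counting gates modulo `m` of unbounded fan-in, with shared subformulas
(circuits), which is symmetric under all permutations of `Fin n` (the other `s` points are fixed). Its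
size is the number of nodes of the circuit plus the number of lines.

(A) If `ψ` has an infinite model and `m = 1` (no counting), or a finite model whose size is congruent to
`s + n` in the sense that `m` divides the binomial coefficients `C(d, i)`, `0 < i < k`, of the difference
`d` of the sizes, then every refutation has size at least `C(n, k)`. By (D) this holds if `m ^ r ∣ d`,
`k ≤ 2 ^ r`.
(B) One refutation of size less than `C(n, k)`, for one `n`, gives refutations of size `O(n' ^ (k - 1))`,
not deeper, without new counting gates, for all `n'` congruent to `n` in this sense.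
(C) If `ψ` has no infinite model, then there are refutations of polynomial size, of constant depth,
without counting gates.
-/

set_option autoImplicit false

namespace Pool.Agent.Results.MP_576eff_lc.SymmetricGap

open FirstOrder.Language Pool.H93.SY

theorem result :
    (∀ (L : FirstOrder.Language.{0, 0}) [L.IsRelational] (ψ : L.Sentence),
      (∃ v : ℕ, ∀ (m s n k : ℕ) (D : Set (Atom L (Fin s ⊕ Fin n) × Bool)), v + 64 * k ≤ n →
        (∀ (M : Type) [L.Structure (Fin s ⊕ M)], (Fin s ⊕ M) ⊨ ψ → Holds D M →
          ((m = 1 ∧ Infinite M) ∨ (Finite M ∧ v + 8 * k ≤ Nat.card M ∧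
            ∀ i, 0 < i → i < k → m ∣ (max n (Nat.card M) - min n (Nat.card M)).choose i)) →
          ∀ R : Refutation ψ m s n D, n.choose k ≤ R.size) ∧
        (∀ R : Refutation ψ m s n D, R.size < n.choose k → ∀ n', v + 8 * k ≤ n' →
          (∀ i, 0 < i → i < k → m ∣ (max n n' - min n n').choose i) →
          ∃ R' : Refutation ψ m s n' (liftD D n'), R'.size ≤ R.size * n' ^ (k - 1) ∧
            (∀ d, (∀ a, R.C.rank a ≤ d) → ∀ a, R'.C.rank a ≤ d) ∧
            ((∀ a c S, R.C.gate a ≠ .mod c S) → ∀ a c S, R'.C.gate a ≠ .mod c S))) ∧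
      ((∀ (M : Type) [L.Structure M] [Infinite M], ¬ M ⊨ ψ) →
        ∃ c : ℕ, ∀ s n : ℕ, c ≤ s + n → ∀ m : ℕ, ∃ R : Refutation ψ m s n ∅,
          R.size ≤ (s + n) ^ c ∧ (∀ a, R.C.rank a ≤ c) ∧ ∀ a d S, R.C.gate a ≠ .mod d S)) ∧
    ∀ m r x i : ℕ, m ^ r ∣ x → 0 < i → i < 2 ^ r → m ∣ x.choose i := by
  refine ⟨fun L _ ψ => ⟨⟨qd ψ + 16, ?_⟩, ?_⟩, ?_⟩
  · intro m s n k D hn
    refine ⟨?_, ?_⟩
    · intro M _ hψ hD hM R
      exact final_lower ψ m s n k D M hψ hD hn hM R
    · intro R hlt n' hn' hm
      exact lift_main ψ m s n n' k D hn hn' hm R hlt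
  · intro h
    exact Pool.H31.SY.upper ψ h
  · intro m r x i h hi hir
    exact dvd_choose_of_pow_dvd h hi hir

end Pool.Agent.Results.MP_576eff_lc.SymmetricGap
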